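import Pool.Agent.H576R3.Lower

/-!
A real-analytic diffeomorphism of the two-torus for which Ruelle's inequality is strict, by a
uniform amount, for every invariant probability measure.

The example is `(z, w) ↦ (z exp(i Im w / 2), w exp(i Im z / 2))` on `Circle × Circle`; in angular
coordinates it is `(p, q) ↦ (p + sin q / 2, q + sin p / 2)`. The function `|cos q - cos p|` is a
Lyapunov function, and every invariant probability measure is carried by the four fixed points:
two saddles and two repelling fixed points.
-/

set_option autoImplicit false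

open scoped Manifold ContDiff Topology
open Bundle Set Filter MeasureTheory

namespace Pool.Agent.Results.MP_794bd6_an.NoEqualityMeasure

open Pool.Agent.H576R3 Pool.Agent.H576R3.Defs

lemma eq_one_or_of_im {z : Circle} (h : (z : ℂ).im = 0) : z = 1 ∨ z = -1 := by
  have hz : (z : ℂ).re ^ 2 + (z : ℂ).im ^ 2 = 1 := by
    have := Circle.normSq_coe z
    rw [Complex.normSq_apply] at this
    linarith
  rw [h] at hz
  have h1 : (z : ℂ).re ^ 2 = 1 ^ 2 := by linarith
  rcases sq_eq_sq_iff_eq_or_eq_neg.1 h1 with h2 | h2
  · left
    exact Circle.ext (Complex.ext (by simpa using h2) (by simpa using h))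
  · right
    exact Circle.ext (Complex.ext (by simpa using h2) (by simpa using h))

lemma fixSet_finite : fixSet.Finite := by
  apply Set.Finite.subset (s := ({1, -1} : Set Circle) ×ˢ ({1, -1} : Set Circle))
  · exact (Set.toFinite _).prod (Set.toFinite _)
  · intro x hx
    exact ⟨eq_one_or_of_im hx.1, eq_one_or_of_im hx.2⟩

lemma isClosedAnalyticSurface_torus [MeasurableSpace (Circle × Circle)]
    [BorelSpace (Circle × Circle)] :
    IsClosedAnalyticSurface ((𝓡 1).prod (𝓡 1)) (Circle × Circle) where
  analytic := inferInstance
  boundaryless := inferInstance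
  dim := by simp
  compact := inferInstance
  hausdorff := inferInstance
  connected := cov_surjective.connectedSpace (contMDiff_cov (m := 1)).continuous
  borel := inferInstance

section

variable [MeasurableSpace (Circle × Circle)] [BorelSpace (Circle × Circle)]

lemma integrable_of_fixSet {ρ : Measure (Circle × Circle)} [IsProbabilityMeasure ρ]
    (h : ∀ᵐ x ∂ρ, x ∈ fixSet) (χ : Circle × Circle → ℝ) : Integrable χ ρ := by
  have h1 : IntegrableOn χ fixSet ρ := IntegrableOn.of_finite fixSet_finite
  have h2 : ρ.restrict fixSet = ρ := Measure.restrict_eq_self_of_ae_mem h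
  rw [IntegrableOn, h2] at h1
  exact h1

lemma hasRuelleGap {W : Type*} [NormedAddCommGroup W] [NormedSpace ℝ W]
    {F : Circle × Circle → W} (hF : IsImmersion ((𝓡 1).prod (𝓡 1)) F)
    (ρ : Measure (Circle × Circle)) (hρ : IsProbabilityMeasure ρ)
    (hinv : MeasurePreserving torF ρ ρ) :
    HasRuelleGap ((𝓡 1).prod (𝓡 1)) F torF torG ρ (Real.log (5 / 4)) := by
  have hfix : ∀ᵐ x ∂ρ, x ∈ fixSet := ae_mem_fixSet hinv
  constructor
  · classical
    refine ⟨fun x => if h : ∃ s, IsChiPlus ((𝓡 1).prod (𝓡 1)) F torF torG x s
      then h.choose else 0, ?_⟩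
    filter_upwards [hfix] with x hx
    have h := exists_chiPlus hF hx
    rw [dif_pos h]
    exact h.choose_spec
  · intro χ hχ
    have hint : Integrable χ ρ := integrable_of_fixSet hfix χ
    refine ⟨hint, ?_⟩
    have h0 : ksEntropy ρ torF ≤ 0 := by
      apply ksEntropy_le_zero
      filter_upwards [hfix] with x hx
      exact torF_fix hx
    refine h0.trans ?_
    have h1 : Real.log (5 / 4) ≤ ∫ x, χ x ∂ρ := by
      have h2 : ∫ _x : Circle × Circle, Real.log (5 / 4) ∂ρ ≤ ∫ x, χ x ∂ρ := by
        apply integral_mono_ae (integrable_const _) hint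
        filter_upwards [hfix, hχ] with x hx hx2
        exact chiPlus_ge hF hx hx2
      simpa using h2
    exact_mod_cast sub_nonneg.2 h1

end

/-- There is a real-analytic diffeomorphism `f` of a closed (compact, connected, without boundary)
real-analytic surface `M` such that every `f`-invariant Borel probability measure `ρ` satisfies
`h(ρ) ≤ ∫ χ₊ dρ - log (5/4)`, where `χ₊` is the sum of the positive characteristic exponents;
the tangent vectors are measured with the norm induced by an arbitrary immersion `F` of `M` in a
normed space (and immersions exist). -/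
theorem result : ∃ (E H M : Type) (_ : NormedAddCommGroup E) (_ : NormedSpace ℝ E)
    (_ : TopologicalSpace H) (I : ModelWithCorners ℝ E H) (_ : TopologicalSpace M)
    (_ : ChartedSpace H M) (_ : MeasurableSpace M) (f : Diffeomorph I I M M ω),
    IsClosedAnalyticSurface I M ∧ (∃ F : M → ℂ × ℂ, IsImmersion I F) ∧
    ∀ (W : Type) (_ : NormedAddCommGroup W) (_ : NormedSpace ℝ W) (F : M → W),
      IsImmersion I F → ∀ ρ : Measure M, IsProbabilityMeasure ρ → MeasurePreserving f ρ ρ →
        HasRuelleGap I F f f.symm ρ (Real.log (5 / 4)) := by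
  let mM : MeasurableSpace (Circle × Circle) := borel _
  have bM : BorelSpace (Circle × Circle) := ⟨rfl⟩
  exact ⟨E2, _, Circle × Circle, inferInstance, inferInstance, inferInstance,
    (𝓡 1).prod (𝓡 1), inferInstance, inferInstance, mM, torD, isClosedAnalyticSurface_torus,
    ⟨_, isImmersion_incl⟩, fun W _ _ F hF ρ hρ hinv => hasRuelleGap hF ρ hρ hinv⟩

end Pool.Agent.Results.MP_794bd6_an.NoEqualityMeasure
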